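import Pool.Agent.Run7.h192.HB.Main

/-!
# Conjecture (B) and injectivity of the Lefschetz operators on Chow groups

Let `𝒱` be a class of smooth projective varieties over a field which is closed under products, with
Chow groups `C` (rational coefficients) and a Weil cohomology theory `W`. Let `X` be in `𝒱` of
dimension `n`, with a divisor class `D` and a Chow–Künneth decomposition `π`, which belong to a
Lefschetz triple: there is a correspondence `Λ` such that multiplication by `D`, `Λ` and
multiplication by `j - n` on `h^j(X)` satisfy the relations of `sl₂` in `CH(X × X)`. Abelian varieties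
have such a triple for all symmetric ample `D` and the canonical `π` (Künnemann), and products of
pairs with a Lefschetz triple have one (`LefschetzTriple.prod` in
`Pool/Agent/Run7/h192/HL/Prod.lean`).

1. `F^(i + 1) CH^i(X) = 0` for `π`, for all `i`. For all `N ≤ n / 2`: `D^(n - 2i)` is injective on
   `CH^i(X)` for `i ≤ N` if and only if `F^0 CH^i(X) = CH^i(X)` for `i ≤ N`; it is injective for all
   `i ≤ n / 2` if and only if `π` satisfies (B). For all `N ≤ (n + 1) / 2`: `D^(n + 1 - 2i)` is
   injective on the homologically trivial classes in `CH^i(X)` for `i ≤ N` if and only if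
   `F^1 CH^i(X)` is the group of these classes for `i ≤ N`; it is injective for all
   `i ≤ (n + 1) / 2` if and only if `π` satisfies (B) and `F^1 CH^i(X)` is the group of the
   homologically trivial classes for all `i`.
2. If for `X × X` and `D ⊞ D` the second injectivity holds (`(D ⊞ D)^(2n + 1 - 2i)` on the
   homologically trivial classes, `i ≤ n`) then `X` has no phantoms, (B) and the equality for `F^1`
   hold for ALL Chow–Künneth decompositions of `X`, and the filtrations are independent of the
   decomposition. If `X` has no phantoms (as it is the case if `X` is finite-dimensional, for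
   instance an abelian variety) and the first injectivity holds for `X × X` and `D ⊞ D` then (B)
   holds for ALL Chow–Künneth decompositions of `X`, and the filtrations are independent.
3. So for a class of pairs `(X, D)`, each of which belongs to a Lefschetz triple, which is closed
   under products (for instance the abelian varieties with a symmetric ample `D`): the second
   injectivity for all members is equivalent to (B), the equality for `F^1` and independence, for all
   members and all Chow–Künneth decompositions, and to the equality for `F^1` in codimension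
   `i ≤ (n + 1) / 2` for one decomposition (which belongs to a Lefschetz triple) of each member. If the
   members have no phantoms then the first injectivity for all members is equivalent to (B) and
   independence for all members and all Chow–Künneth decompositions, and to `F^0 CH^i(X) = CH^i(X)`
   for `i ≤ n / 2` for one decomposition of each member.
-/

open Pool.Agent.H914 Pool.Agent.R903 Pool.Agent.Run7.h192.HB

universe u v w

namespace Pool.Agent.Results.MP_d6e134_ag.LefschetzInjectivity

theorem result {k : Type u} [Field k] {𝒱 : VarClass k} {C : ChowTheory.{u, v} 𝒱}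
    {W : WeilTheory.{u, v, w} C} (hP : C.Polarized) :
    (∀ (X : 𝒱.Obj) (D : C.CH X) Λ π, Triple W D Λ π →
      ((∀ i, FilEnds C π i) ∧
        (∀ N, 2 * N ≤ X.dim → ((∀ i ≤ N, InjAt C D i) ↔ ∀ i ≤ N, FilZero C π i)) ∧
        (Inj C D ↔ SatisfiesB C π) ∧
        (∀ N, 2 * N ≤ X.dim + 1 → ((∀ i ≤ N, HomInjAt W D i) ↔ ∀ i ≤ N, FilOne W π i)) ∧
        (HomInj W D ↔ SatisfiesB C π ∧ ∀ i, FilOne W π i)) ∧
      (HomInj W (boxSum C D D) → NoPhantom W X ∧ AllB W X ∧ AllOne W X) ∧
      (NoPhantom W X → Inj C (boxSum C D D) → AllB W X)) ∧
    ∀ 𝒯 : Pairs W,
      [𝒯.All fun _ D => HomInj W D, 𝒯.All fun X _ => AllB W X ∧ AllOne W X,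
        𝒯.All fun X D => ForOne W D fun π => ∀ i, 2 * i ≤ X.dim + 1 → FilOne W π i].TFAE ∧
      ((𝒯.All fun X _ => NoPhantom W X) →
        [𝒯.All fun _ D => Inj C D, 𝒯.All fun X _ => AllB W X,
          𝒯.All fun X D => ForOne W D fun π => ∀ i, 2 * i ≤ X.dim → FilZero C π i].TFAE) :=
  ⟨fun _ _ _ _ h => ⟨⟨h.toHL.filEnds, h.toHL.full_iff, h.toHL.full_all, h.toHL.hom_iff,
    h.toHL.hom_all⟩, h.toHL.squareB hP, fun hN hI => h.toHL.squareFull hP hN hI⟩,
    fun 𝒯 => ⟨𝒯.tfaeB hP, 𝒯.tfaeFull hP⟩⟩

end Pool.Agent.Results.MP_d6e134_ag.LefschetzInjectivity
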