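import Pool.Agent.Run7.h192.Murre.Geo

/-!
# Murre's conjecture (B) and one good decomposition

Let `𝒱` be a class of smooth projective varieties over a field `k` which is closed under products
(for example all of them), with Chow groups `C` (rational coefficients) and a Weil cohomology theory
`W`.

1. Suppose that `X` has no phantoms (the only idempotent in `CH^(dim X)(X × X)` which acts as zero
   on cohomology is `0`) and that there is **one** Chow–Künneth decomposition `π` of `X` with
   `π b ∘ γ ∘ π a = 0` for all `a < b` and all correspondences `γ` of degree zero, and with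
   `F^(i+1) CH^i(X) = 0` for all `i`. Then all Chow–Künneth decompositions of `X` satisfy
   `F^0 CH^i(X) = CH^i(X)` and `F^(i+1) CH^i(X) = 0` for all `i`, and all filtrations are
   independent of the decomposition.
2. All `X` have a Chow–Künneth decomposition and satisfy conjecture (B), if and only if each `X`
   is as in 1.
-/

open Pool.Agent.H914 Pool.Agent.R903 Pool.Agent.Run7.h192.Murre

universe u v w

namespace Pool.Agent.Results.MP_d6e134_ag.OneGoodDecomposition

theorem result {k : Type u} [Field k] {𝒱 : VarClass k} {C : ChowTheory.{u, v} 𝒱}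
    (W : WeilTheory.{u, v, w} C) (hP : C.Polarized) :
    (∀ X : 𝒱.Obj, W.HasGoodCK X → W.MurreB X ∧ W.MurreC X) ∧
    (∀ X : 𝒱.Obj, 1 ≤ X.dim → W.HasCK X → W.MurreB X → W.MurreB0 (X.prod X) X.dim →
      W.HasGoodCK X) ∧
    ((∃ Y : 𝒱.Obj, 1 ≤ Y.dim) →
      ((∀ X : 𝒱.Obj, W.HasCK X ∧ W.MurreB X) ↔ ∀ X : 𝒱.Obj, W.HasGoodCK X)) := by
  have h1 : ∀ X : 𝒱.Obj, W.HasGoodCK X → W.MurreB X ∧ W.MurreC X := by
    rintro X ⟨hN, π, hπ, hT, hF⟩
    have hC := (triangular_of_one hN hπ hT).murreC
    refine ⟨fun π' hπ' i => ⟨(hC i 0).murreB0 hP π' hπ', ?_⟩, hC⟩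
    rw [hC i (i + 1) π' π hπ' hπ, hF i]
  have h2 : ∀ X : 𝒱.Obj, W.NoPhantoms X → W.HasCK X → W.MurreB X →
      W.Triangular X → W.HasGoodCK X := by
    rintro X hN ⟨π, h⟩ hB hT
    exact ⟨hN, π, h, fun a b hab γ hγ => hT π π h h a b hab γ hγ, fun i => (hB π h i).2⟩
  refine ⟨h1, fun X hd hCK hB hB0 => ?_, ?_⟩
  · have hT := hB0.triangular
    exact h2 X (noPhantoms_of_triangular hd hCK hT) hCK hB hT
  · rintro ⟨Y, hY⟩
    constructor
    · intro h X
      have hT : ∀ X : 𝒱.Obj, W.Triangular X := fun X =>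
        WeilTheory.MurreB0.triangular fun π hπ => ((h (X.prod X)).2 π hπ X.dim).1
      refine h2 X (noPhantoms_of_prod hP Y ?_) (h X).1 (h X).2 (hT X)
      refine noPhantoms_of_triangular ?_ (h _).1 (hT _)
      rw [VarClass.Obj.dim_prod]
      omega
    · intro h X
      obtain ⟨hN, π, hπ, hT, hF⟩ := h X
      exact ⟨⟨π, hπ⟩, (h1 X (h X)).1⟩

end Pool.Agent.Results.MP_d6e134_ag.OneGoodDecomposition
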