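import Pool.Agent.Run7.h634.Mur.Line

/-!
# Murre's conjecture (B): one graded piece, codimension at most half the dimension
-/

set_option autoImplicit false

open CategoryTheory AlgebraicGeometry

universe u v w

namespace Pool.Agent.Results.MP_d6e134_ag.OneGradedPiece

open Pool.Agent.H914 Pool.Agent.H914.VarClass Pool.Agent.H914.VarClass.Obj Pool.Agent.W492.BB
  Pool.Agent.W550.Corr Pool.Agent.TH133 Pool.Agent.Run7.H634.Mur

variable {k : Type u} [Field k] {𝒱 : VarClass k} {C : TheoryData.{u, v, 0} 𝒱 ℚ}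
  [hC : IsChowProj C] {K : Type w} [Field K]
  {H : WeilTheoryData.{u, v, w} C K} [hH : IsWeilProj H]

/-- Let the class of varieties contain a projective line.

(1) `F^(i+1) CH^i(X) = 0` for all varieties `X`, all `i` and all Chow-Kunneth decompositions if and
only if `π (i-1)` acts as zero on `CH^i(X)`, that is `F^(i+1) CH^i(X) = F^(i+2) CH^i(X)`, for all `X`,
all Chow-Kunneth decompositions `π` and all `i ≤ dim X / 2`.

(2) (B) holds for all varieties, codimensions and decompositions if and only if this is so and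
`F^0 CH^d(X × X) = CH^d(X × X)` for all `X` and all decompositions of `X × X`, `d = dim X`. -/
theorem result (P : 𝒱.Obj) (x : C.A P) (h : IsLine C P x) :
    ((∀ X : 𝒱.Obj, MurreB1 H X) ↔
      ∀ (X : 𝒱.Obj) (π : ℕ → C.A (X.prod X)), IsCK H X π → NoJump π) ∧
    ((∀ X : 𝒱.Obj, MurreB0 H X ∧ MurreB1 H X) ↔
      ∀ X : 𝒱.Obj, (∀ ρ : ℕ → C.A ((X.prod X).prod (X.prod X)), IsCK H (X.prod X) ρ →
        ckFil C ρ X.dim 0 = C.gr (X.prod X) X.dim) ∧
        ∀ π : ℕ → C.A (X.prod X), IsCK H X π → NoJump π) :=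
  ⟨murreB1_iff h, murreB_iff h⟩

end Pool.Agent.Results.MP_d6e134_ag.OneGradedPiece
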