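import Pool.Agent.Run7.h634.PB.Main

/-!
# Murre's conjecture (B), the part `F^0 CH^i = CH^i`: the projectors of odd degree suffice

Let `π` be a Chow-Kunneth decomposition of `X`. `F^0 CH^i(X) = CH^i(X)` says that `π_(2 i + e)` acts as
zero on `CH^i(X)` for all `e ≥ 1`. We call `K(e, i)` the statement that `π_(2 i + e)` acts as zero on
`CH^i(X)` for all smooth projective varieties `X` and all their Chow-Kunneth decompositions `π`.

**Theorem.**

1. (Three-term law.) `K(e - 1, i + 1)` and `K(e + 1, i)` imply `K(e, i)`, for all `e ≥ 2`, `i ≥ 0`.
2. (Parity law.) `F^0 CH^i(X) = CH^i(X)` for all `X`, all `i` and all Chow-Kunneth decompositions if (and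
   only if) this is so for the projectors of odd degree: for every odd `e` the statement `K(e, i)` holds
   for infinitely many `i`. Then the filtration `F` is also independent of the decomposition, for all
   `X` (conjecture (C)).
3. The projectors of even degree suffice as well: the same conclusions hold if for every even
   `e ≥ 2` the statement `K(e, i)` holds for infinitely many `i`, and for infinitely many `i` the projector
   `π_(2 i)` acts as zero on the algebraically trivial cycles of codimension `i`, for all `X` and `π`.

So one half of the family of vanishing statements of which `F^0 CH^i = CH^i` consists can be omitted.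

## Proof

Let `c = π_j c ∈ CH^i(X)`, `j = 2 i + e`, and let `Z` be a curve of genus `g ≥ 1`, with its projector
`ρ_1 ∈ CH^1(Z × Z)`. Consider `x = c × ρ_1 ∈ CH^(i+1)((X × Z) × Z)`. Its restriction to `(X × Z) × z` is `c × w`
with `w = ᵗρ_1 w ∈ CH^1(Z)`; it is in the component of degree `j + 1` of `CH^(i+1)(X × Z)` and vanishes by
`K(e - 1, i + 1)`; for `e = 1` it is algebraically trivial, of codimension `i + 1` and degree `2 (i + 1)`. By the
theorem of Bloch and Srinivas `x = ∑ y_k × w_k` with `y_k ∈ CH^i(X × Z)` and zero-cycles `w_k` on `Z`. We
multiply by `1 × ρ_1`, push forward to `X` and apply `π_j`. From the left side we get `deg(ρ_1 · ρ_1) c =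
- 2 g c`. On the right side `π_j y_k ρ_1` occurs, that is `(π_j ⊗ ρ_1) y_k`, the component of degree `j + 1` of
`y_k ∈ CH^i(X × Z)`. It vanishes by `K(e + 1, i)`. So `c = 0`. Products with a projective line give
`K(e, i + 1) ⇒ K(e, i)`. That `F^0 CH^i = CH^i` for all varieties implies (C) is known (Jannsen; starting
library `TH133`).

The same method was used for Hartshorne's conjecture on hypersurfaces in my
`MP_4be043_ag.OddDimensionsSuffice`. The theory `C` has the formal properties of the Chow groups
(`IsChowProj`), `H` is a Weil cohomology theory (`IsWeilProj`); the theorem of Bloch and Srinivas for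
families over curves (`BlochSrinivas`, true over algebraically closed uncountable fields) and the
existence of a projective line (`IsLine`) and of a curve of positive genus (`IsTestCurve`) are the other
known facts which are used.
-/

set_option autoImplicit false

open CategoryTheory AlgebraicGeometry

universe u v w

namespace Pool.Agent.Results.MP_d6e134_ag.ParityLaw

open Pool.Agent.H914 Pool.Agent.H914.VarClass Pool.Agent.W492.BB Pool.Agent.TH133
  Pool.Agent.Run7.H634.HC Pool.Agent.Run7.H634.Mur Pool.Agent.Run7.H634.PB

/-- **The parity law for Murre's conjecture (B).** `KillsIn H e i` says that `π (2 i + e)` acts as zero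
on `CH^i(X)` for all `X` and all Chow-Kunneth decompositions `π`, `Often H e` that this is so for
infinitely many `i`. (1) The three-term law. (2) `F^0 CH^i(X) = CH^i(X)` and the independence of the
filtration of the decomposition, for all `X`, all `i` and all decompositions, are equivalent to
`Often H e` for all odd `e`. (3) They follow from `Often H e` for all even `e ≥ 2` and `OftenAlg H`. -/
theorem result {k : Type u} [Field k] {𝒱 : VarClass k} {C : TheoryData.{u, v, 0} 𝒱 ℚ}
    [IsChowProj C] {K : Type w} [Field K] {H : WeilTheoryData.{u, v, w} C K} [IsWeilProj H]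
    (hBS : BlochSrinivas C) {Z : 𝒱.Obj} {ρ : ℕ → C.A (Z.prod Z)} {q : ℚ}
    (hZ : IsTestCurve H Z ρ q) {P : 𝒱.Obj} {x : C.A P} (hP : IsLine C P x) :
    (∀ e i : ℕ, KillsIn H (e + 1) (i + 1) → KillsIn H (e + 3) i → KillsIn H (e + 2) i) ∧
    ((∀ X : 𝒱.Obj, MurreB0 H X ∧ MurreC H X) ↔ ∀ e, e % 2 = 1 → Often H e) ∧
    (OftenAlg H → (∀ e, 2 ≤ e → e % 2 = 0 → Often H e) →
      ∀ X : 𝒱.Obj, MurreB0 H X ∧ MurreC H X) :=
  main hBS hZ hP

end Pool.Agent.Results.MP_d6e134_ag.ParityLaw
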